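import Mathlib
import Pool.Agent.TH497.PW.IntFlow
import Pool.Agent.TH362.FP.Pos
import Pool.Agent.Y335.FL.Main
import Pool.Agent.U875.AU.Main

set_option autoImplicit false

/-!
# Graphs with automorphisms and short circuits (MP_c8786f_co)

Let `G` be a connected bridgeless multigraph.  A vertex `v` is called exceptional if at most three
images of `v` under automorphisms of `G` (`v` included) are joined to `v` by a walk all of whose edges
are in circuits with at most eleven edges.  Then `G` has a nowhere-zero 5-flow, and the characteristic
polynomial of its bond matroid is positive at all integers `q ≥ 5`, if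
* `G` does not have 126 exceptional vertices, or
* two of any 51 exceptional vertices are adjacent, or
* `G` does not have 11 (8, 3, 2) exceptional vertices with pairwise distances at least 3 (4, 5, 6).

In particular all connected vertex-transitive multigraphs with a circuit with `4, ..., 11` edges (and
without bridge) have nowhere-zero 5-flows: they have no exceptional vertices.  (So the circuits of a
connected vertex-transitive graph without nowhere-zero 5-flow have two, three or at least twelve
edges.)  The order, the number of the orbits of the automorphism group and the number of the cuts with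
three edges are arbitrary.

Proof.  Let `H` be a quotient of `G` without nowhere-zero 5-flow all of whose proper quotients have
such flows.  By the starting library (`Y335/FL`) circuits with at most eleven edges can be contracted,
so every class of vertices of `G` which is a vertex of `H` is closed: no circuit with at most eleven
edges crosses its boundary.  (1) The minimal ones among the closed sets with at least one and at most
three boundary edges are pairwise disjoint: if `X` and `Y` have a common vertex then one of `X - Y` and
`Y - X` has at most three boundary edges (posimodularity).  Automorphisms map such minimal sets to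
minimal sets.  So if `e` is a boundary edge of the minimal set `X`, `v` its end in `X`, and `w` an
image of `v` under an automorphism `σ` which is joined to `v` by short circuits, then `w` is in `X` and
`σ` maps `X` to `X`, and `w` is an end of the boundary edge `σ e` of `X`; there are at most three such
vertices `w`.  Hence every closed set with three boundary edges contains an exceptional vertex
(`U875/AU/Aut.lean`).  (2) `H` has 126 vertices with three edges, 51 of them are pairwise nonadjacent
(starting library `N410/FV`), and 11 (8, 3, 2) of them have pairwise distances at least 3 (4, 5, 6)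
(`U875/SW`: averages over walks without backtracking in `H`).
-/

namespace Pool.Agent.Results.MP_c8786f_co.Automorphisms

open Pool.Agent.TH497.PW Pool.Agent.U875.SP Pool.Agent.U875.TP Pool.Agent.U875.AU

variable {V E : Type}

/-- Kirchhoff's law. -/
def IsFlow [DecidableEq V] [Fintype E] (src dst : E → V) (f : E → ℤ) : Prop :=
  ∀ v : V, ∑ e ∈ Finset.univ.filter (fun e => src e = v), f e
    = ∑ e ∈ Finset.univ.filter (fun e => dst e = v), f e

/-- The number of the components of the graph with the vertices `V` and the edges `A`. -/
noncomputable def components (src dst : E → V) (A : Finset E) : ℕ :=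
  Nat.card (SimpleGraph.fromRel
    (fun u v : V => ∃ e ∈ A, src e = u ∧ dst e = v)).ConnectedComponent

/-- The rank of `A` in the cycle matroid of the graph. -/
noncomputable def cycleRank [Fintype V] (src dst : E → V) (A : Finset E) : ℕ :=
  Fintype.card V - components src dst A

/-- The rank of `A` in the bond matroid of the graph (the dual of the cycle matroid). -/
noncomputable def bondRank [Fintype V] [Fintype E] [DecidableEq E] (src dst : E → V)
    (A : Finset E) : ℕ :=
  A.card + cycleRank src dst Aᶜ - cycleRank src dst Finset.univ

/-- The characteristic polynomial of the bond matroid at the integer `x`. -/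
noncomputable def bondCharPoly [Fintype V] [Fintype E] [DecidableEq E] (src dst : E → V)
    (x : ℤ) : ℤ :=
  ∑ A : Finset E, (-1) ^ A.card * x ^ (bondRank src dst Finset.univ - bondRank src dst A)

theorem isFlow_iff [DecidableEq V] [Fintype E] (src dst : E → V) (f : E → ℤ) :
    IsFlow src dst f ↔
      ∀ v, ∑ e, f e * ((if src e = v then 1 else 0) - (if dst e = v then 1 else 0)) = 0 := by
  unfold IsFlow
  refine forall_congr' fun v => ?_
  rw [Finset.sum_filter, Finset.sum_filter, ← sub_eq_zero, ← Finset.sum_sub_distrib]
  have : ∀ e, (if src e = v then f e else 0) - (if dst e = v then f e else 0)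
      = f e * ((if src e = v then 1 else 0) - (if dst e = v then 1 else 0)) := by
    intro e
    by_cases h1 : src e = v <;> by_cases h2 : dst e = v <;> simp [h1, h2]
  rw [Finset.sum_congr rfl (fun e _ => this e)]

theorem nzf [Fintype V] [DecidableEq V] [Fintype E] [DecidableEq E] (src dst : E → V)
    (h : Pool.Agent.TH676.Z.FlowOn src dst ∅ ∅) : NZF src dst := by
  obtain ⟨f, h1, _, h3⟩ := h
  refine ⟨f, fun e => h3 e (Finset.notMem_empty _) (Finset.notMem_empty _), fun x => ?_⟩
  rw [← h1 x]
  unfold Pool.Agent.TH676.Z.bd
  refine Finset.sum_congr rfl fun e _ => ?_
  unfold ic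
  by_cases h4 : src e = x <;> by_cases h5 : dst e = x <;> simp [h4, h5]

theorem charPoly_pos [Fintype V] [DecidableEq V] [Fintype E] [DecidableEq E] (src dst : E → V)
    (f : E → ℤ) (h1 : IsFlow src dst f) (h2 : ∀ e, 1 ≤ |f e| ∧ |f e| ≤ 4) (q : ℕ) (hq : 5 ≤ q) :
    0 < bondCharPoly src dst q :=
  Pool.Agent.TH362.FP.chr_pos src dst f h2 h1 q hq

/-- The graph is connected (a set of vertices without boundary edges is empty or contains all
vertices), and

* some automorphism maps `v` to `w`, for all vertices `v` and `w`, and there is a circuit with
  `4, ..., 11` edges, or
* there are no 126 exceptional vertices, or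
* there are no `k` exceptional vertices with pairwise distances at least `D`, where `(k, D)` is one of
  `(51, 2)`, `(11, 3)`, `(8, 4)`, `(3, 5)`, `(2, 6)`. -/
def Condition [Fintype V] [DecidableEq V] [Fintype E] [DecidableEq E] (src dst : E → V) : Prop :=
  (∀ X : Finset V, boundary src dst X = ∅ → X = ∅ ∨ X = Finset.univ) ∧
    (TransitiveWithCircuit src dst ∨ ¬ FarExceptional src dst 126 1 ∨
      ¬ FarExceptional src dst 51 2 ∨ ¬ FarExceptional src dst 11 3 ∨
      ¬ FarExceptional src dst 8 4 ∨ ¬ FarExceptional src dst 3 5 ∨ ¬ FarExceptional src dst 2 6)

/-- A multigraph without cut with exactly one edge which satisfies the condition has a nowhere-zero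
5-flow, and the characteristic polynomial of its bond matroid is positive at all `q ≥ 5`. -/
theorem result :
    ∀ (V E : Type) [Fintype V] [DecidableEq V] [Fintype E] [DecidableEq E] (src dst : E → V),
      Condition src dst →
      (∀ Y : Finset V, (boundary src dst Y).card ≠ 1) →
      (∃ f : E → ℤ, IsFlow src dst f ∧ ∀ e, 1 ≤ |f e| ∧ |f e| ≤ 4) ∧
      ∀ q : ℕ, 5 ≤ q → 0 < bondCharPoly src dst q := by
  intro V E _ _ _ _ src dst hC hb
  have hbr : Pool.Agent.TH676.Z.Br src dst ∅ ∅ :=
    fun Y _ => by rw [Finset.sdiff_empty]; exact hb Y
  have hfl : Pool.Agent.TH676.Z.FlowOn src dst ∅ ∅ := by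
    by_contra hn
    obtain ⟨h126, h51, h11, h8, h3, h2⟩ := farExceptional_of Pool.Agent.Y335.FL.contract_all
      Pool.Agent.Y335.FL.ahl src dst hbr hn hC.1
    rcases hC.2 with h | h | h | h | h | h | h
    · obtain ⟨x, hx, -⟩ := h2
      exact no_exceptional h (x 0) (hx 0)
    · exact h h126
    · exact h h51
    · exact h h11
    · exact h h8
    · exact h h3
    · exact h h2
  obtain ⟨F, hF, hF0⟩ := int_flow src dst (nzf src dst hfl)
  have hF1 := (isFlow_iff src dst F).mpr hF0
  exact ⟨⟨F, hF1, hF⟩, fun q hq => charPoly_pos src dst F hF1 hF q hq⟩

end Pool.Agent.Results.MP_c8786f_co.Automorphisms
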