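import Mathlib
import Pool.Agent.TH497.PW.IntFlow
import Pool.Agent.TH362.FP.Pos
import Pool.Agent.Y335.FL.Main
import Pool.Agent.U875.SW.Pack

set_option autoImplicit false

/-!
# Far sets with few boundary edges (MP_c8786f_co)

Let `G` be a bridgeless multigraph without nowhere-zero 5-flow, let `d ≥ 4`, and let `L` be a finite
nonempty list of vertices of the infinite cubic tree `T`.  Then `T` is spread over `G`, there are
classes `X w` of vertices of `G`, `w` a vertex of `T`, such that classes of adjacent vertices of `T`
are joined by an edge of `G`, the vertices in `X a` have distance at least `min (t, 12 - t)` from those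
in `X b`, where `t` is the distance of `a` and `b` in `T`; and more than the part
`(9 d - 30) / (10 (d - 3))` of the classes `X w`, `w ∈ L`, have at least three and fewer than `d`
boundary edges (`3 / 5` for `d = 4`, `3 / 4` for `d = 5`, `4 / 5` for `d = 6`).

So `G` has a nowhere-zero 5-flow, and the characteristic polynomial of its bond matroid is positive
at all integers `q ≥ 5`, if it does not contain
* 11 sets of vertices with exactly three boundary edges and pairwise distances at least 3, or
* 8 sets of vertices with exactly three boundary edges and pairwise distances at least 4, or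
* 3 sets of vertices with exactly three boundary edges and pairwise distances at least 5, or
* 2 sets of vertices with exactly three boundary edges and distance at least 6, or
* 14 (10, 4, 3) sets of vertices with three or four boundary edges and pairwise distances at least 3
  (4, 5, 6), or generally more than the part `(9 d - 30) / (10 (d - 3))` of 18 (13, 4, 3) such sets with
  fewer than `d` boundary edges.
The order of `G`, the number of its disjoint cuts with three edges, its degrees and its connectivity
are arbitrary.  The starting results `ThreeCutPacking` and `IndependentThreeCuts` are about 126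
disjoint and 51 nonadjacent sets with three boundary edges.

Proof.  Let `H` be a quotient of `G` without nowhere-zero 5-flow all of whose proper quotients have
such flows.  By the starting library it has girth at least twelve, all vertices which are not isolated
have three neighbours, and the `N` vertices which are not isolated span at most `(5 N - 6) / 3` edges
(`Y335/FL`, `Y358/IN`, `N410/FV`).  New: the number of the pairs of an edge and an end of degree less
than `d` is greater than the part `(9 d - 30) / (10 (d - 3))` of the number of all pairs (`weight`).
In a random walk without backtracking, which starts with a random directed edge, every directed edge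
is uniformly distributed.  So if the cubic tree is mapped to `H` at random, such that the neighbours
of a vertex are mapped to different neighbours, then the expected number of the members of `L` whose
image has degree less than `d` is greater than `(9 d - 30) |L| / (10 (d - 3))`; in Lean the expected
values are the potential `F` of `U875/SW/Avg.lean`, and the branches are chosen one by one
(`U875/SW/Emb.lean`).  As there are no short circuits, the distances in `H` are at least
`min (t, 12 - t)` (`U875/SP`).
-/

namespace Pool.Agent.Results.MP_c8786f_co.FarSmallCuts

open Pool.Agent.TH497.PW Pool.Agent.U875.SP Pool.Agent.U875.TP Pool.Agent.U875.SW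

variable {V E : Type}

/-- Kirchhoff's law. -/
def IsFlow [DecidableEq V] [Fintype E] (src dst : E → V) (f : E → ℤ) : Prop :=
  ∀ v : V, ∑ e ∈ Finset.univ.filter (fun e => src e = v), f e
    = ∑ e ∈ Finset.univ.filter (fun e => dst e = v), f e

/-- The number of the components of the graph with the vertices `V` and the edges `A`. -/
noncomputable def components (src dst : E → V) (A : Finset E) : ℕ :=
  Nat.card (SimpleGraph.fromRel
    (fun u v : V => ∃ e ∈ A, src e = u ∧ dst e = v)).ConnectedComponent

/-- The rank of `A` in the cycle matroid of the graph. -/
noncomputable def cycleRank [Fintype V] (src dst : E → V) (A : Finset E) : ℕ :=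
  Fintype.card V - components src dst A

/-- The rank of `A` in the bond matroid of the graph (the dual of the cycle matroid). -/
noncomputable def bondRank [Fintype V] [Fintype E] [DecidableEq E] (src dst : E → V)
    (A : Finset E) : ℕ :=
  A.card + cycleRank src dst Aᶜ - cycleRank src dst Finset.univ

/-- The characteristic polynomial of the bond matroid at the integer `x`. -/
noncomputable def bondCharPoly [Fintype V] [Fintype E] [DecidableEq E] (src dst : E → V)
    (x : ℤ) : ℤ :=
  ∑ A : Finset E, (-1) ^ A.card * x ^ (bondRank src dst Finset.univ - bondRank src dst A)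

theorem isFlow_iff [DecidableEq V] [Fintype E] (src dst : E → V) (f : E → ℤ) :
    IsFlow src dst f ↔
      ∀ v, ∑ e, f e * ((if src e = v then 1 else 0) - (if dst e = v then 1 else 0)) = 0 := by
  unfold IsFlow
  refine forall_congr' fun v => ?_
  rw [Finset.sum_filter, Finset.sum_filter, ← sub_eq_zero, ← Finset.sum_sub_distrib]
  have : ∀ e, (if src e = v then f e else 0) - (if dst e = v then f e else 0)
      = f e * ((if src e = v then 1 else 0) - (if dst e = v then 1 else 0)) := by
    intro e
    by_cases h1 : src e = v <;> by_cases h2 : dst e = v <;> simp [h1, h2]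
  rw [Finset.sum_congr rfl (fun e _ => this e)]

theorem nzf [Fintype V] [DecidableEq V] [Fintype E] [DecidableEq E] (src dst : E → V)
    (h : Pool.Agent.TH676.Z.FlowOn src dst ∅ ∅) : NZF src dst := by
  obtain ⟨f, h1, _, h3⟩ := h
  refine ⟨f, fun e => h3 e (Finset.notMem_empty _) (Finset.notMem_empty _), fun x => ?_⟩
  rw [← h1 x]
  unfold Pool.Agent.TH676.Z.bd
  refine Finset.sum_congr rfl fun e _ => ?_
  unfold ic
  by_cases h4 : src e = x <;> by_cases h5 : dst e = x <;> simp [h4, h5]

theorem charPoly_pos [Fintype V] [DecidableEq V] [Fintype E] [DecidableEq E] (src dst : E → V)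
    (f : E → ℤ) (h1 : IsFlow src dst f) (h2 : ∀ e, 1 ≤ |f e| ∧ |f e| ≤ 4) (q : ℕ) (hq : 5 ≤ q) :
    0 < bondCharPoly src dst q :=
  Pool.Agent.TH362.FP.chr_pos src dst f h2 h1 q hq

/-- For some `d ≥ 4` the cubic tree is not spread over the graph such that more than the part
`(9 d - 30) / (10 (d - 3))` of the classes of a certain list of vertices of the tree have at least
three and fewer than `d` boundary edges, or there are no `k` sets of vertices with at least three and
fewer than `d` boundary edges and with pairwise distances at least `D`, where `D` is `3, 4, 5, 6` and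
`k` is the least integer greater than `(9 d - 30) / (10 (d - 3))` times `18, 13, 4, 3`. -/
def Condition [Fintype V] [DecidableEq V] [Fintype E] [DecidableEq E] (src dst : E → V) : Prop :=
  ∃ d, 4 ≤ d ∧ ((∃ L : List (List (Fin 3)), L ≠ [] ∧ (∀ w ∈ L, IsVertex w) ∧
      ¬ SpreadFew src dst d L) ∨
    ¬ FarSets src dst d (many d 18) 3 ∨ ¬ FarSets src dst d (many d 13) 4 ∨
      ¬ FarSets src dst d (many d 4) 5 ∨ ¬ FarSets src dst d (many d 3) 6)

/-- the numbers of the sets for `d = 4` and `d = 5` -/
example : many 4 18 = 11 ∧ many 4 13 = 8 ∧ many 4 4 = 3 ∧ many 4 3 = 2 ∧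
    many 5 18 = 14 ∧ many 5 13 = 10 ∧ many 5 4 = 4 ∧ many 5 3 = 3 := by decide

/-- A multigraph without cut with exactly one edge which satisfies the condition has a nowhere-zero
5-flow, and the characteristic polynomial of its bond matroid is positive at all `q ≥ 5`. -/
theorem result :
    ∀ (V E : Type) [Fintype V] [DecidableEq V] [Fintype E] [DecidableEq E] (src dst : E → V),
      Condition src dst →
      (∀ Y : Finset V, (boundary src dst Y).card ≠ 1) →
      (∃ f : E → ℤ, IsFlow src dst f ∧ ∀ e, 1 ≤ |f e| ∧ |f e| ≤ 4) ∧
      ∀ q : ℕ, 5 ≤ q → 0 < bondCharPoly src dst q := by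
  intro V E _ _ _ _ src dst hC hb
  have hbr : Pool.Agent.TH676.Z.Br src dst ∅ ∅ :=
    fun Y _ => by rw [Finset.sdiff_empty]; exact hb Y
  have hfl : Pool.Agent.TH676.Z.FlowOn src dst ∅ ∅ := by
    by_contra hn
    have key : ∀ (d : ℕ), 4 ≤ d → ∀ L : List (List (Fin 3)), L ≠ [] → (∀ w ∈ L, IsVertex w) →
        SpreadFew src dst d L := fun d hd L hL hv =>
      spreadFew_of Pool.Agent.Y335.FL.contract_all src dst hbr hn hd L hL hv
    obtain ⟨d, hd, h | h | h | h | h⟩ := hC
    · obtain ⟨L, hL, hv, h⟩ := h
      exact h (key d hd L hL hv)
    · exact h (farSets_of hd v18_ok.1 v18_ok.2 (key d hd v18 (by decide) v18_ok.1))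
    · exact h (farSets_of hd v13_ok.1 v13_ok.2 (key d hd v13 (by decide) v13_ok.1))
    · exact h (farSets_of hd v4_ok.1 v4_ok.2 (key d hd v4 (by decide) v4_ok.1))
    · exact h (farSets_of hd v3_ok.1 v3_ok.2 (key d hd v3 (by decide) v3_ok.1))
  obtain ⟨F, hF, hF0⟩ := int_flow src dst (nzf src dst hfl)
  have hF1 := (isFlow_iff src dst F).mpr hF0
  exact ⟨⟨F, hF1, hF⟩, fun q hq => charPoly_pos src dst F hF1 hF q hq⟩

end Pool.Agent.Results.MP_c8786f_co.FarSmallCuts
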