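import Mathlib
import Pool.Agent.TH497.PW.IntFlow
import Pool.Agent.TH362.FP.Pos
import Pool.Agent.Y335.FL.Main
import Pool.Agent.U659.OF.Cmp

set_option autoImplicit false

/-!
# Nowhere-zero 5-flows: oddness at most four, without any connectivity condition (MP_c8786f_co)

Let `G` be a bridgeless multigraph with an edge set `F` in which all degrees are even, such that at most
four components of `(V, F)` have an odd number of boundary edges.  Then `G` has a nowhere-zero 5-flow,
and the characteristic polynomial of its bond matroid is positive at all integers `q ≥ 5`.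
In particular this holds for all bridgeless cubic graphs of oddness at most four (theorem `cubic`).
It is also sufficient that at most four components of `(V, F ∪ C)` have an odd number of boundary edges,
for the union `C` of a chain of cycles each of which has at most eleven edges outside of the union of
the earlier ones.

Proof.  The edges of `C` are contracted (library `Y335/FL`).  The class of the graphs with edge sets
`x` (even) and `y` which cover all edges such that at most four vertices have odd degree in `y` is
closed under contractions.  Let `H` be a counterexample in this class with as few edges as possible.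
Then `H` has girth at least twelve (`Y335/FL`), and it has no nontrivial cuts with three, four or five
edges: for such a cut the boundary values of the flows of the two sides span two subspaces one of which
misses a value pattern of a gadget; the side with at most two of the odd vertices, or with all four,
is replaced by this gadget inside the class (`Str`, `Kl`, `Kf`, `Ext`, `Gad`, `Gae`, `Red`).
Choose `x`, `y` such that the number of the odd vertices, then the number of the odd vertices isolated
in `x`, and then the number of the other ones near to those are minimal.  Odd vertices lie in different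
components of `x`, and at most one odd vertex is isolated in `x` (`Pot`, `Tle`).  For each way to pair
the four odd vertices let `2 a + b` be the flow with demands `1`, `-1`, `1`, `-1` given by eulerian
orientations of `x` and of `y` with the pairs.  By Hoffman's circulation theorem there is a flow with
values `1, ..., 4` in this orientation, or there is a set `X` with six boundary edges, all of them in
`y`, two of them in `x`, with exactly two odd vertices from two different pairs.  The sets `X`, `Y` of
two suitable pairings cross, and submodularity gives two disjoint sets with at most five boundary edges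
and one odd vertex each whose union is one of `X`, `Y` and the complements (`Ori`).  Such sets are
trivial, and this contradicts the choice of `x` and `y` (`Unc`).
-/

namespace Pool.Agent.Results.MP_c8786f_co.OddnessFour

open Pool.Agent.TH497.PW

variable {V E : Type}

/-- The edges with exactly one end in `X`. -/
def boundary [DecidableEq V] [Fintype E] (src dst : E → V) (X : Finset V) : Finset E :=
  Finset.univ.filter (fun e => ¬ (src e ∈ X ↔ dst e ∈ X))

/-- Kirchhoff's law. -/
def IsFlow [DecidableEq V] [Fintype E] (src dst : E → V) (f : E → ℤ) : Prop :=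
  ∀ v : V, ∑ e ∈ Finset.univ.filter (fun e => src e = v), f e
    = ∑ e ∈ Finset.univ.filter (fun e => dst e = v), f e

/-- The graph with the vertices `V` and the edges `A` (loops and multiplicities forgotten). -/
def graph (src dst : E → V) (A : Finset E) : SimpleGraph V :=
  SimpleGraph.fromRel (fun u v : V => ∃ e ∈ A, src e = u ∧ dst e = v)

open Classical in
/-- The vertices of a component. -/
noncomputable def vertices [Fintype V] {G : SimpleGraph V} (c : G.ConnectedComponent) : Finset V :=
  Finset.univ.filter (fun v => G.connectedComponentMk v = c)

/-- The number of the components of the graph with the vertices `V` and the edges `A` which have an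
odd number of boundary edges. -/
noncomputable def oddComponents [Fintype V] [DecidableEq V] [Fintype E] (src dst : E → V)
    (A : Finset E) : ℕ :=
  Nat.card {c : (graph src dst A).ConnectedComponent // Odd (boundary src dst (vertices c)).card}

/-- The number of the components of the graph with the vertices `V` and the edges `A`. -/
noncomputable def components (src dst : E → V) (A : Finset E) : ℕ :=
  Nat.card (graph src dst A).ConnectedComponent

/-- The rank of `A` in the cycle matroid of the graph. -/
noncomputable def cycleRank [Fintype V] (src dst : E → V) (A : Finset E) : ℕ :=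
  Fintype.card V - components src dst A

/-- The rank of `A` in the bond matroid of the graph (the dual of the cycle matroid). -/
noncomputable def bondRank [Fintype V] [Fintype E] [DecidableEq E] (src dst : E → V)
    (A : Finset E) : ℕ :=
  A.card + cycleRank src dst Aᶜ - cycleRank src dst Finset.univ

/-- The characteristic polynomial of the bond matroid at the integer `x`. -/
noncomputable def bondCharPoly [Fintype V] [Fintype E] [DecidableEq E] (src dst : E → V)
    (x : ℤ) : ℤ :=
  ∑ A : Finset E, (-1) ^ A.card * x ^ (bondRank src dst Finset.univ - bondRank src dst A)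

theorem isFlow_iff [DecidableEq V] [Fintype E] (src dst : E → V) (f : E → ℤ) :
    IsFlow src dst f ↔
      ∀ v, ∑ e, f e * ((if src e = v then 1 else 0) - (if dst e = v then 1 else 0)) = 0 := by
  unfold IsFlow
  refine forall_congr' fun v => ?_
  rw [Finset.sum_filter, Finset.sum_filter, ← sub_eq_zero, ← Finset.sum_sub_distrib]
  have : ∀ e, (if src e = v then f e else 0) - (if dst e = v then f e else 0)
      = f e * ((if src e = v then 1 else 0) - (if dst e = v then 1 else 0)) := by
    intro e
    by_cases h1 : src e = v <;> by_cases h2 : dst e = v <;> simp [h1, h2]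
  rw [Finset.sum_congr rfl (fun e _ => this e)]

theorem nzf [Fintype V] [DecidableEq V] [Fintype E] [DecidableEq E] (src dst : E → V)
    (h : Pool.Agent.TH676.Z.FlowOn src dst ∅ ∅) : NZF src dst := by
  obtain ⟨f, h1, _, h3⟩ := h
  refine ⟨f, fun e => h3 e (Finset.notMem_empty _) (Finset.notMem_empty _), fun x => ?_⟩
  rw [← h1 x]
  unfold Pool.Agent.TH676.Z.bd
  refine Finset.sum_congr rfl fun e _ => ?_
  unfold ic
  by_cases h4 : src e = x <;> by_cases h5 : dst e = x <;> simp [h4, h5]

theorem charPoly_pos [Fintype V] [DecidableEq V] [Fintype E] [DecidableEq E] (src dst : E → V)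
    (f : E → ℤ) (h1 : IsFlow src dst f) (h2 : ∀ e, 1 ≤ |f e| ∧ |f e| ≤ 4) (q : ℕ) (hq : 5 ≤ q) :
    0 < bondCharPoly src dst q :=
  Pool.Agent.TH362.FP.chr_pos src dst f h2 h1 q hq

/-- the reduction modulo five of a flow with values in `{0, 1, -1}` -/
theorem mod5 [Fintype V] [DecidableEq V] [Fintype E] [DecidableEq E] (src dst : E → V)
    (C : Finset E) (h : ∃ z : E → ℤ, IsFlow src dst z ∧ (∀ e, z e = 0 ∨ z e = 1 ∨ z e = -1) ∧
      ∀ e, z e ≠ 0 ↔ e ∈ C) :
    ∃ z : E → ZMod 5, (∀ v, Pool.Agent.TH676.Z.bd src dst z v = 0) ∧
      (∀ e, z e = 0 ∨ z e = 1 ∨ z e = -1) ∧ ∀ e, z e ≠ 0 ↔ e ∈ C := by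
  obtain ⟨z, h1, h2, h3⟩ := h
  refine ⟨fun e => ((z e : ℤ) : ZMod 5), fun v => ?_, fun e => ?_, fun e => ?_⟩
  · have h4 := h1 v
    rw [Finset.sum_filter, Finset.sum_filter, ← sub_eq_zero, ← Finset.sum_sub_distrib] at h4
    have h5 := congrArg (fun t : ℤ => (t : ZMod 5)) h4
    simp only [Int.cast_sum, Int.cast_sub, Int.cast_zero] at h5
    refine Eq.trans ?_ h5
    unfold Pool.Agent.TH676.Z.bd
    rw [Finset.sum_sub_distrib, Finset.sum_sub_distrib]
    congr 1 <;>
    · refine Finset.sum_congr rfl fun e _ => ?_
      split_ifs <;> simp
  · rcases h2 e with h | h | h <;> simp [h]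
  · rw [← h3 e]
    have h10 : (1 : ZMod 5) ≠ 0 := by decide
    rcases h2 e with h | h | h <;> simp [h, h10]

/-- a set without boundary edges in `A` is a union of components -/
theorem closed [DecidableEq V] [Fintype E] (src dst : E → V) (A : Finset E)
    (X : Finset V) (h : Disjoint (boundary src dst X) A) (u v : V)
    (huv : (graph src dst A).connectedComponentMk u = (graph src dst A).connectedComponentMk v) :
    u ∈ X ↔ v ∈ X := by
  have key : ∀ e ∈ A, (src e ∈ X ↔ dst e ∈ X) := by
    intro e he
    by_contra hne
    exact Finset.disjoint_left.1 h (Finset.mem_filter.2 ⟨Finset.mem_univ _, hne⟩) he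
  obtain ⟨p⟩ := SimpleGraph.ConnectedComponent.exact huv
  induction p with
  | nil => exact Iff.rfl
  | cons hadj p ih =>
    refine Iff.trans ?_ (ih (SimpleGraph.ConnectedComponent.sound ⟨p⟩))
    rw [graph, SimpleGraph.fromRel_adj] at hadj
    rcases hadj.2 with ⟨e, he, h1, h2⟩ | ⟨e, he, h1, h2⟩
    · rw [← h1, ← h2]
      exact key e he
    · rw [← h1, ← h2]
      exact (key e he).symm

/-- at most four odd components and five disjoint sets -/
theorem no_five [Fintype V] [DecidableEq V] [Fintype E] [DecidableEq E] (src dst : E → V)
    (A : Finset E) (h : oddComponents src dst A ≤ 4) :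
    ¬ ∃ K : Finset (Finset V), K.card = 5 ∧
      (∀ X ∈ K, Odd (Pool.Agent.TH676.Z.crs src dst X).card ∧
        Disjoint (Pool.Agent.TH676.Z.crs src dst X) A) ∧
      ∀ X ∈ K, ∀ Y ∈ K, X ≠ Y → Disjoint X Y := by
  classical
  have hpar : ∀ X : Finset V, Odd (Pool.Agent.TH676.Z.crs src dst X).card ↔
      ∑ v ∈ X, Pool.Agent.U659.OF.b2 src dst (fun _ => 1) v ≠ 0 := by
    intro X
    rw [← Pool.Agent.U659.OF.z2_cast_ne, Pool.Agent.U659.OF.crs_b2]
  have h1 := Pool.Agent.U659.OF.no_five_of (fun v => (graph src dst A).connectedComponentMk v)
    (fun v => Pool.Agent.U659.OF.b2 src dst (fun _ => 1) v)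
    (fun X => Disjoint (Pool.Agent.TH676.Z.crs src dst X) A)
    (fun X hX u v huv => closed src dst A X hX u v huv) (by
      refine le_trans (le_of_eq ?_) h
      unfold oddComponents
      refine Nat.card_congr (Equiv.subtypeEquivRight fun c => ?_)
      rw [← hpar]
      unfold vertices
      have h2 : ∀ (i1 i2 : DecidablePred fun v => (graph src dst A).connectedComponentMk v = c),
          @Finset.filter V (fun v => (graph src dst A).connectedComponentMk v = c) i1 Finset.univ =
          @Finset.filter V (fun v => (graph src dst A).connectedComponentMk v = c) i2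
            Finset.univ := by
        intro i1 i2
        congr
      rw [h2 _ (Classical.propDecidable <| (graph src dst A).connectedComponentMk · = c)]
      exact Iff.rfl)
  rintro ⟨K, hK5, hK, hKd⟩
  exact h1 ⟨K, hK5, fun X hX => ⟨(hpar X).1 (hK X hX).1, (hK X hX).2⟩, hKd⟩

/-- Let `src dst : E → V` be a bridgeless multigraph, let `C` be a chain of cycles each of which has
at most eleven edges outside of the union of the earlier ones (for instance the empty chain), and let
`F` be a set of edges such that every vertex is an end of an even number of edges in `F` which are not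
loops.  If at most four components of the graph with the vertices `V` and the edges in `F` and in the
chain have an odd number of boundary edges, then the graph has a nowhere-zero 5-flow, and the
characteristic polynomial of the bond matroid is positive at all integers `q ≥ 5`. -/
theorem result :
    ∀ (V E : Type) [Fintype V] [DecidableEq V] [Fintype E] [DecidableEq E] (src dst : E → V)
      (m : ℕ) (C : Fin m → Finset E) (F : Finset E),
      (∀ Y : Finset V, (boundary src dst Y).card ≠ 1) →
      (∀ i, ∃ z : E → ℤ, IsFlow src dst z ∧ (∀ e, z e = 0 ∨ z e = 1 ∨ z e = -1) ∧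
        ∀ e, z e ≠ 0 ↔ e ∈ C i) →
      (∀ i, (C i \ (Finset.univ.filter (fun j => j < i)).biUnion C).card ≤ 11) →
      (∀ v, Even (boundary src dst {v} ∩ F).card) →
      oddComponents src dst (F ∪ Finset.univ.biUnion C) ≤ 4 →
      (∃ f : E → ℤ, IsFlow src dst f ∧ ∀ e, 1 ≤ |f e| ∧ |f e| ≤ 4) ∧
      ∀ q : ℕ, 5 ≤ q → 0 < bondCharPoly src dst q := by
  intro V E _ _ _ _ src dst m C F hb hC hnew hF h
  have h3 := Pool.Agent.U659.OF.flow_odd4 Pool.Agent.Y335.FL.quot' src dst
    (Finset.univ.biUnion C) F (fun Y _ => by rw [Finset.sdiff_empty]; exact hb Y) hF
    (no_five src dst _ h)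
  have hfl := Pool.Agent.Y335.FL.lift_all V E src dst m C (fun i => mod5 src dst (C i) (hC i)) hnew h3
  obtain ⟨f, hf, hf0⟩ := int_flow src dst (nzf src dst hfl)
  have hf1 := (isFlow_iff src dst f).mpr hf0
  exact ⟨⟨f, hf1, hf⟩, fun q hq => charPoly_pos src dst f hf1 hf q hq⟩

/-- Consequence: a bridgeless cubic graph with a 2-factor `F` at most four circuits of which have an
odd number of vertices has a nowhere-zero 5-flow. -/
theorem cubic (V E : Type) [Fintype V] [DecidableEq V] [Fintype E] [DecidableEq E]
    (src dst : E → V) (hb : ∀ Y : Finset V, (boundary src dst Y).card ≠ 1)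
    (h3 : ∀ v, (Finset.univ.filter (fun e => src e = v)).card +
      (Finset.univ.filter (fun e => dst e = v)).card = 3)
    (F : Finset E) (h2 : ∀ v, (F.filter (fun e => src e = v)).card +
      (F.filter (fun e => dst e = v)).card = 2)
    (h : Nat.card {c : (graph src dst F).ConnectedComponent // Odd (vertices c).card} ≤ 4) :
    ∃ f : E → ℤ, IsFlow src dst f ∧ ∀ e, 1 ≤ |f e| ∧ |f e| ≤ 4 :=
  (result V E src dst 0 (fun _ => ∅) F hb (fun i => i.elim0) (fun i => i.elim0)
    (fun v => Pool.Agent.U659.OF.two_even F v (h2 v)) (by
      have h4 : F ∪ Finset.univ.biUnion (fun _ : Fin 0 => (∅ : Finset E)) = F := by simp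
      rw [h4]
      refine le_trans (le_of_eq ?_) h
      unfold oddComponents
      exact Nat.card_congr (Equiv.subtypeEquivRight fun c =>
        Pool.Agent.U659.OF.cubic_par h3 (vertices c)))).1

end Pool.Agent.Results.MP_c8786f_co.OddnessFour
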