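import Mathlib
import Pool.Agent.TH497.PW.IntFlow
import Pool.Agent.TH362.FP.Pos
import Pool.Agent.Y335.FL.Main
import Pool.Agent.U875.RQ.Closure

set_option autoImplicit false

/-!
# Nowhere-zero 5-flows: graphs built from graphs with reducible quotients (MP_c8786f_co)

A multigraph is called reducible if it has a vertex with exactly two boundary edges, a circuit with
`2, ..., 11` edges, a set of `k ≥ 2` vertices which spans at least `5 (k - 1) / 3` edges (not loops),
a cut with at most three edges and edges on both sides, or a separating vertex.  Suppose that every
quotient of `G` (vertices are identified, adjacent or not) with at least 126 vertices with exactly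
three boundary edges is reducible.  Then `G` (without cuts with one edge) has a nowhere-zero 5-flow,
and the characteristic polynomial of its bond matroid is positive at all integers `q ≥ 5`.

More generally this holds for all graphs which can be built from graphs with this property: if it is
true for the graph obtained by the contraction of a circuit with at most eleven edges, or of a set of
vertices which induces a graph of strength at least `5/3`, or of an edge of a cut with two edges, then
it is true for the graph; and it is true if it is true for the two graphs obtained from a cut with at
most three edges, or from a separating vertex, by collapsing one of the sides.  In particular it is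
sufficient that all the pieces which remain after these reductions have at most 125 vertices of odd
degree; the number of the pieces, and with it the order of the graph and the number of its disjoint
cuts with three edges, is arbitrary.

The starting result `ThreeCutPacking` needs that all partitions (without crossing edges in a chain of
short cycles) with at least 126 classes with exactly three boundary edges have at least
`5 (k - 1) / 3` crossing edges, where `k` is the number of the classes.  These graphs have reducible
quotients: the classes of the partition form a dense set, and if an edge of the chain is crossing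
then the quotient has a circuit with at most eleven edges.

Proof.  Let `H` be a quotient of `G` without nowhere-zero 5-flow all of whose proper quotients have
such flows.  By the starting library `H` has no circuits with at most eleven edges, no vertices with
two edges, at least 126 vertices with three edges (`Y335/FL`, `N410/FV/Cubic`), and `k ≥ 2` vertices
span at most `(5 k - 6) / 3` edges (`N410/FV/Dense`).  New: if a cut of `H` has at most three edges
then one side spans no edge, because the values of a flow on such a cut can be prescribed on one side
(`TH676/Z/Three`), and the flows of the two quotients in which one side is one vertex can be glued; and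
`H` has no separating vertex (`U875/RQ/Core.lean`).  So `H` is not reducible.  The second part is an
induction: flows of the reduced graphs are lifted or glued (`U875/RQ/Closure.lean`).
-/

namespace Pool.Agent.Results.MP_c8786f_co.ReducibleQuotients

open Pool.Agent.TH497.PW Pool.Agent.U875.TP Pool.Agent.U875.RQ

variable {V E : Type}

/-- Kirchhoff's law. -/
def IsFlow [DecidableEq V] [Fintype E] (src dst : E → V) (f : E → ℤ) : Prop :=
  ∀ v : V, ∑ e ∈ Finset.univ.filter (fun e => src e = v), f e
    = ∑ e ∈ Finset.univ.filter (fun e => dst e = v), f e

/-- The number of the components of the graph with the vertices `V` and the edges `A`. -/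
noncomputable def components (src dst : E → V) (A : Finset E) : ℕ :=
  Nat.card (SimpleGraph.fromRel
    (fun u v : V => ∃ e ∈ A, src e = u ∧ dst e = v)).ConnectedComponent

/-- The rank of `A` in the cycle matroid of the graph. -/
noncomputable def cycleRank [Fintype V] (src dst : E → V) (A : Finset E) : ℕ :=
  Fintype.card V - components src dst A

/-- The rank of `A` in the bond matroid of the graph (the dual of the cycle matroid). -/
noncomputable def bondRank [Fintype V] [Fintype E] [DecidableEq E] (src dst : E → V)
    (A : Finset E) : ℕ :=
  A.card + cycleRank src dst Aᶜ - cycleRank src dst Finset.univ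

/-- The characteristic polynomial of the bond matroid at the integer `x`. -/
noncomputable def bondCharPoly [Fintype V] [Fintype E] [DecidableEq E] (src dst : E → V)
    (x : ℤ) : ℤ :=
  ∑ A : Finset E, (-1) ^ A.card * x ^ (bondRank src dst Finset.univ - bondRank src dst A)

theorem isFlow_iff [DecidableEq V] [Fintype E] (src dst : E → V) (f : E → ℤ) :
    IsFlow src dst f ↔
      ∀ v, ∑ e, f e * ((if src e = v then 1 else 0) - (if dst e = v then 1 else 0)) = 0 := by
  unfold IsFlow
  refine forall_congr' fun v => ?_
  rw [Finset.sum_filter, Finset.sum_filter, ← sub_eq_zero, ← Finset.sum_sub_distrib]
  have : ∀ e, (if src e = v then f e else 0) - (if dst e = v then f e else 0)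
      = f e * ((if src e = v then 1 else 0) - (if dst e = v then 1 else 0)) := by
    intro e
    by_cases h1 : src e = v <;> by_cases h2 : dst e = v <;> simp [h1, h2]
  rw [Finset.sum_congr rfl (fun e _ => this e)]

theorem nzf [Fintype V] [DecidableEq V] [Fintype E] [DecidableEq E] (src dst : E → V)
    (h : Pool.Agent.TH676.Z.FlowOn src dst ∅ ∅) : NZF src dst := by
  obtain ⟨f, h1, _, h3⟩ := h
  refine ⟨f, fun e => h3 e (Finset.notMem_empty _) (Finset.notMem_empty _), fun x => ?_⟩
  rw [← h1 x]
  unfold Pool.Agent.TH676.Z.bd
  refine Finset.sum_congr rfl fun e _ => ?_
  unfold ic
  by_cases h4 : src e = x <;> by_cases h5 : dst e = x <;> simp [h4, h5]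

theorem charPoly_pos [Fintype V] [DecidableEq V] [Fintype E] [DecidableEq E] (src dst : E → V)
    (f : E → ℤ) (h1 : IsFlow src dst f) (h2 : ∀ e, 1 ≤ |f e| ∧ |f e| ≤ 4) (q : ℕ) (hq : 5 ≤ q) :
    0 < bondCharPoly src dst q :=
  Pool.Agent.TH362.FP.chr_pos src dst f h2 h1 q hq

/-- A multigraph without cut with exactly one edge which is built from graphs with reducible quotients
has a nowhere-zero 5-flow, and the characteristic polynomial of its bond matroid is positive at all
`q ≥ 5`. -/
theorem result :
    ∀ (V E : Type) [Fintype V] [DecidableEq V] [Fintype E] [DecidableEq E] (src dst : E → V),
      Built src dst →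
      (∀ Y : Finset V, (boundary src dst Y).card ≠ 1) →
      (∃ f : E → ℤ, IsFlow src dst f ∧ ∀ e, 1 ≤ |f e| ∧ |f e| ≤ 4) ∧
      ∀ q : ℕ, 5 ≤ q → 0 < bondCharPoly src dst q := by
  intro V E _ _ _ _ src dst hC hb
  have hfl : Pool.Agent.TH676.Z.FlowOn src dst ∅ ∅ :=
    hC.flow Pool.Agent.Y335.FL.contract_all Pool.Agent.Y335.FL.ahl
      (fun Y _ => by rw [Finset.sdiff_empty]; exact hb Y)
  obtain ⟨F, hF, hF0⟩ := int_flow src dst (nzf src dst hfl)
  have hF1 := (isFlow_iff src dst F).mpr hF0
  exact ⟨⟨F, hF1, hF⟩, fun q hq => charPoly_pos src dst F hF1 hF q hq⟩

end Pool.Agent.Results.MP_c8786f_co.ReducibleQuotients
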